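import Pool.Agent.N328.GL.Defs

/-!
# GL/SPL: splitting a vertex of degree at least four
-/

set_option autoImplicit false

namespace Pool.Agent.N693.GL
open Finset Pool.Agent.H160R2.HF Pool.Agent.N328.LF Pool.Agent.N328.CD Pool.Agent.N328.GL

variable {V E : Type} [Fintype V] [Fintype E] [DecidableEq V] [DecidableEq E]

/-- the vertex at an end of an edge -/
def en {V E : Type} (B : OrGraph V E) : E × Bool → V
  | (e, false) => B.t e
  | (e, true) => B.h e

/-- the edges whose tail is in `P` -/
def TT (P : Finset (E × Bool)) : Finset E := univ.filter fun e => (e, false) ∈ P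

/-- the edges whose head is in `P` -/
def HH (P : Finset (E × Bool)) : Finset E := univ.filter fun e => (e, true) ∈ P

theorem card_TH (P : Finset (E × Bool)) : (TT P).card + (HH P).card = P.card := by
  have h1 : P = (TT P).image (fun e => (e, false)) ∪ (HH P).image (fun e => (e, true)) := by
    ext ⟨e, s⟩
    cases s <;> simp [TT, HH]
  have h2 : Disjoint ((TT P).image (fun e => (e, false))) ((HH P).image (fun e => (e, true))) := by
    rw [Finset.disjoint_left]
    rintro ⟨e, s⟩ h h'
    simp only [mem_image, Prod.mk.injEq] at h h'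
    obtain ⟨_, _, _, rfl⟩ := h
    obtain ⟨_, _, _, h⟩ := h'
    exact absurd h (by decide)
  conv_rhs => rw [h1]
  rw [card_union_of_disjoint h2, card_image_of_injective, card_image_of_injective]
  · intro a b h; exact (Prod.mk.inj h).1
  · intro a b h; exact (Prod.mk.inj h).1

/-- the splitting at the ends `P` has a bridge -/
def Bad (B : OrGraph V E) (v : V) (P : Finset (E × Bool)) : Prop :=
  ∃ Y : Finset V, v ∉ Y ∧
    ∀ e, (((e, false) ∈ P ∨ B.t e ∈ Y) ↔ ((e, true) ∈ P ∨ B.h e ∈ Y))

theorem mem_cut {V E : Type} [Fintype V] [Fintype E] [DecidableEq V] (B : OrGraph V E)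
    (X : Finset V) (e : E) : e ∈ B.cut X ↔ ¬ (B.t e ∈ X ↔ B.h e ∈ X) := by
  simp [OrGraph.cut]

theorem good (B : OrGraph V E) (hB : Connected B) (hb : ∀ X : Finset V, (B.cut X).card ≠ 1)
    (v : V) (P : Finset (E × Bool)) (hP : ∀ p ∈ P, en B p = v) (hbad : ¬ Bad B v P) :
    Connected (split B v (TT P) (HH P)) ∧
      ∀ X : Finset (Option V), ((split B v (TT P) (HH P)).cut X).card ≠ 1 := by
  classical
  -- the tails and heads
  have ht : ∀ (X : Finset (Option V)) (e : E), ((split B v (TT P) (HH P)).t (some e) ∈ X ↔
      if (e, false) ∈ P then none ∈ X else some (B.t e) ∈ X) := by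
    intro X e
    show ((if e ∈ TT P then none else some (B.t e) : Option V) ∈ X ↔ _)
    by_cases h : (e, false) ∈ P
    · have : e ∈ TT P := by simp [TT, h]
      rw [if_pos this, if_pos h]
    · have : e ∉ TT P := by simp [TT, h]
      rw [if_neg this, if_neg h]
  have hh : ∀ (X : Finset (Option V)) (e : E), ((split B v (TT P) (HH P)).h (some e) ∈ X ↔
      if (e, true) ∈ P then none ∈ X else some (B.h e) ∈ X) := by
    intro X e
    show ((if e ∈ HH P then none else some (B.h e) : Option V) ∈ X ↔ _)
    by_cases h : (e, true) ∈ P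
    · have : e ∈ HH P := by simp [HH, h]
      rw [if_pos this, if_pos h]
    · have : e ∉ HH P := by simp [HH, h]
      rw [if_neg this, if_neg h]
  have hPt : ∀ e, (e, false) ∈ P → B.t e = v := fun e he => hP _ he
  have hPh : ∀ e, (e, true) ∈ P → B.h e = v := fun e he => hP _ he
  have hsame : ∀ X : Finset (Option V), (none ∈ X ↔ some v ∈ X) →
      (split B v (TT P) (HH P)).cut X = (B.cut (univ.filter fun u => some u ∈ X)).image some := by
    intro X hX
    ext x
    cases x with
    | none =>
      rw [mem_cut]
      have : ((split B v (TT P) (HH P)).t none ∈ X ↔ (split B v (TT P) (HH P)).h none ∈ X) := hX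
      simp [this]
    | some e =>
      rw [mem_cut, ht, hh]
      rw [Finset.mem_image]
      constructor
      · intro h
        refine ⟨e, ?_, rfl⟩
        rw [mem_cut]
        simp only [mem_filter, mem_univ, true_and]
        intro h2
        apply h
        by_cases h3 : (e, false) ∈ P <;> by_cases h4 : (e, true) ∈ P
        · simp [h3, h4]
        · rw [if_pos h3, if_neg h4, hX, ← h2, hPt e h3]
        · rw [if_neg h3, if_pos h4, hX, h2, hPh e h4]
        · rw [if_neg h3, if_neg h4, h2]
      · rintro ⟨e', h, h5⟩
        obtain rfl : e' = e := Option.some.inj h5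
        rw [mem_cut] at h
        simp only [mem_filter, mem_univ, true_and] at h
        intro h2
        apply h
        by_cases h3 : (e', false) ∈ P <;> by_cases h4 : (e', true) ∈ P
        · rw [hPt e' h3, hPh e' h4]
        · rw [if_pos h3, if_neg h4, hX] at h2
          rw [hPt e' h3, h2]
        · rw [if_neg h3, if_pos h4, hX] at h2
          rw [hPh e' h4, h2]
        · rw [if_neg h3, if_neg h4] at h2
          exact h2
  have hnone : ∀ X : Finset (Option V), ¬ (none ∈ X ↔ some v ∈ X) →
      none ∈ (split B v (TT P) (HH P)).cut X := by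
    intro X hX
    rw [mem_cut]
    exact hX
  refine ⟨?_, ?_⟩
  · intro X hX hXc
    by_cases h : (none ∈ X ↔ some v ∈ X)
    · rw [hsame X h]
      apply Finset.Nonempty.image
      apply hB
      · obtain ⟨x, hx⟩ := hX
        cases x with
        | none => exact ⟨v, by simpa using h.1 hx⟩
        | some u => exact ⟨u, by simpa using hx⟩
      · obtain ⟨x, hx⟩ := hXc
        rw [mem_compl] at hx
        cases x with
        | none => exact ⟨v, by simpa using fun h' => hx (h.2 h')⟩
        | some u => exact ⟨u, by simpa using hx⟩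
    · exact ⟨none, hnone X h⟩
  · intro X hc
    by_cases h : (none ∈ X ↔ some v ∈ X)
    · rw [hsame X h, card_image_of_injective _ (Option.some_injective _)] at hc
      exact hb _ hc
    · obtain ⟨x, hx⟩ := card_eq_one.1 hc
      have h1 := hnone X h
      rw [hx, mem_singleton] at h1
      subst h1
      have h2 : ∀ e, ((split B v (TT P) (HH P)).t (some e) ∈ X ↔
          (split B v (TT P) (HH P)).h (some e) ∈ X) := by
        intro e
        by_contra h3
        have h4 : some e ∈ (split B v (TT P) (HH P)).cut X := (mem_cut _ _ _).2 h3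
        rw [hx, mem_singleton] at h4
        exact absurd h4 (by simp)
      apply hbad
      by_cases h3 : none ∈ X
      · have h4 : some v ∉ X := fun h4 => h ⟨fun _ => h4, fun _ => h3⟩
        refine ⟨univ.filter fun u => some u ∈ X, by simpa using h4, fun e => ?_⟩
        have h5 := h2 e
        rw [ht, hh] at h5
        simp only [mem_filter, mem_univ, true_and]
        by_cases h6 : (e, false) ∈ P <;> by_cases h7 : (e, true) ∈ P <;>
          simp_all
      · have h4 : some v ∈ X := by
          by_contra h4
          exact h ⟨fun h => absurd h h3, fun h => absurd h h4⟩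
        refine ⟨univ.filter fun u => some u ∉ X, by simpa using h4, fun e => ?_⟩
        have h5 := h2 e
        rw [ht, hh] at h5
        simp only [mem_filter, mem_univ, true_and]
        by_cases h6 : (e, false) ∈ P <;> by_cases h7 : (e, true) ∈ P <;>
          simp_all

theorem not_both (B : OrGraph V E) (hb : ∀ X : Finset V, (B.cut X).card ≠ 1) (v : V)
    {a b c : E × Bool} (ha : en B a = v) (hb' : en B b = v) (hc : en B c = v) (hab : a ≠ b)
    (hac : a ≠ c) (hbc : b ≠ c) : ¬ (Bad B v {a, b} ∧ Bad B v {a, c}) := by
  rintro ⟨⟨X, hvX, hX⟩, ⟨Y, hvY, hY⟩⟩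
  obtain ⟨ea, sa⟩ := a
  obtain ⟨eb, sb⟩ := b
  obtain ⟨ec, sc⟩ := c
  apply hb (X ∩ Y)
  rw [card_eq_one]
  refine ⟨ea, ?_⟩
  ext e
  rw [mem_cut, mem_singleton]
  have hXe := hX e
  have hYe := hY e
  have hXa := hX ea
  have hYa := hY ea
  simp only [mem_insert, mem_singleton, Prod.mk.injEq, mem_inter] at *
  cases sa <;> cases sb <;> cases sc <;> simp only [en] at ha hb' hc <;> grind

/-- GL/SPL: splitting a vertex of degree at least four. -/
theorem spl (B : OrGraph V E) (hB : Connected B) (hb : ∀ X : Finset V, (B.cut X).card ≠ 1)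
    (v : V) (hv : 4 ≤ B.deg univ v) :
    ∃ T H : Finset E, (∀ e ∈ T, B.t e = v) ∧ (∀ e ∈ H, B.h e = v) ∧ T.card + H.card = 2 ∧
      Connected (split B v T H) ∧ ∀ X : Finset (Option V), ((split B v T H).cut X).card ≠ 1 := by
  classical
  have hW : 2 < (univ.filter fun p : E × Bool => en B p = v).card := by
    rw [← card_TH]
    have h1 : TT (univ.filter fun p : E × Bool => en B p = v) = univ.filter fun e => B.t e = v := by
      ext e; simp only [TT, mem_filter, mem_univ, true_and]; rfl
    have h2 : HH (univ.filter fun p : E × Bool => en B p = v) = univ.filter fun e => B.h e = v := by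
      ext e; simp only [HH, mem_filter, mem_univ, true_and]; rfl
    rw [h1, h2]
    unfold OrGraph.deg at hv
    omega
  obtain ⟨a, ha, b, hb', c, hc, hab, hac, hbc⟩ := Finset.two_lt_card.1 hW
  simp only [mem_filter, mem_univ, true_and] at ha hb' hc
  have main : ∀ a b : E × Bool, en B a = v → en B b = v → a ≠ b → ¬ Bad B v {a, b} →
      ∃ T H : Finset E, (∀ e ∈ T, B.t e = v) ∧ (∀ e ∈ H, B.h e = v) ∧ T.card + H.card = 2 ∧
      Connected (split B v T H) ∧ ∀ X : Finset (Option V), ((split B v T H).cut X).card ≠ 1 := by
    intro a b ha hb' hab hbad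
    have hP : ∀ p ∈ ({a, b} : Finset (E × Bool)), en B p = v := by
      intro p hp
      rw [mem_insert, mem_singleton] at hp
      rcases hp with rfl | rfl
      · exact ha
      · exact hb'
    refine ⟨TT {a, b}, HH {a, b}, ?_, ?_, ?_, good B hB hb v _ hP hbad⟩
    · intro e he
      exact hP (e, false) (by simpa [TT] using he)
    · intro e he
      exact hP (e, true) (by simpa [HH] using he)
    · rw [card_TH, card_pair hab]
  by_cases h : Bad B v {a, b}
  · exact main a c ha hc hac fun h' => not_both B hb v ha hb' hc hab hac hbc ⟨h, h'⟩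
  · exact main a b ha hb' hab h

end Pool.Agent.N693.GL
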